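import Pool.Agent.helper87.TR.Spec

/-!
# Row tr:TS: the sorted reduced basis
-/

namespace Pool.Agent.helper87.TR

open Polynomial Finset Module FP97
open Pool.Agent.helper97.FP

theorem TS (hT1 : T1_stmt) : TS_stmt := by
  intro ι a c K δ ha hc
  obtain ⟨F, g, y, hG, -, hgy⟩ := hT1 ι a c K δ ha hc
  have hb : ∀ i : Fin 3, g i ≤ K.card + (i : ℕ) * δ := fun i => by
    have := hgy i
    omega
  set s : Equiv.Perm (Fin 3) := Tuple.sort g with hs
  have hmono : Monotone (g ∘ s) := Tuple.monotone_sort g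
  have h01 : g (s 0) ≤ g (s 1) := hmono (by decide)
  have h12 : g (s 1) ≤ g (s 2) := hmono (by decide)
  refine ⟨fun i => F (s i), fun i => g (s i), ⟨fun i => hG.mem (s i), ?_, ?_⟩, h01, h12, ?_⟩
  · have e : (Matrix.of fun i => F (s i)) = (Matrix.of F).submatrix s id := rfl
    rw [e, Matrix.det_permute]
    refine mul_ne_zero ?_ hG.det
    rcases Int.units_eq_one_or (Equiv.Perm.sign s) with h | h <;> rw [h] <;> simp
  · have e1 : ∑ i, g (s i) = ∑ i, g i := Equiv.sum_comp s g
    rw [Fin.sum_univ_three, Fin.sum_univ_three] at e1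
    show g (s 0) + g (s 1) + g (s 2) = 3 * δ + 2 * K.card
    rw [e1]
    exact hG.sum
  · intro i
    show g (s i) ≤ K.card + (i : ℕ) * δ
    have hle : ∀ i : Fin 3, (s i : ℕ) ≤ 2 := fun i => by have := (s i).isLt; omega
    fin_cases i
    · show g (s 0) ≤ K.card + 0 * δ
      obtain ⟨j, hj⟩ := s.surjective 0
      have h1 : g (s 0) ≤ g (s j) := hmono (Fin.zero_le j)
      rw [hj] at h1
      have h2 := hb 0
      simp only [Fin.val_zero, zero_mul, add_zero] at h2
      omega
    · show g (s 1) ≤ K.card + 1 * δ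
      by_cases h : (s 1 : ℕ) ≤ 1
      · have h1 := hb (s 1)
        have h2 : (s 1 : ℕ) * δ ≤ 1 * δ := Nat.mul_le_mul_right δ h
        omega
      · have h3 : (s 2 : ℕ) ≤ 1 := by
          have h4 : s 1 ≠ s 2 := fun h5 => by
            have := s.injective h5
            exact absurd this (by decide)
          have h5 : (s 1 : ℕ) ≠ (s 2 : ℕ) := fun h6 => h4 (Fin.ext h6)
          have h6 := hle 1
          have h7 := hle 2
          omega
        have h1 := hb (s 2)
        have h2 : (s 2 : ℕ) * δ ≤ 1 * δ := Nat.mul_le_mul_right δ h3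
        omega
    · show g (s 2) ≤ K.card + 2 * δ
      have h1 := hb (s 2)
      have h2 : (s 2 : ℕ) * δ ≤ 2 * δ := Nat.mul_le_mul_right δ (hle 2)
      omega

end Pool.Agent.helper87.TR
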